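import Pool.Agent.Helper20.IIC.Stmts

/-! Module WA of the FK-Ising incipient infinite cluster project. -/

namespace IIC

open Filter Topology Set
open scoped BigOperators

/-- coordinates made nonnegative -/
theorem wa_abs {d : ℕ} {S : (Fin d → ℤ) → ℝ}
    (hflip : ∀ (i : Fin d) (x), S (Function.update x i (-(x i))) = S x)
    (x : Fin d → ℤ) (s : Finset (Fin d)) :
    S (fun i => if i ∈ s then |x i| else x i) = S x := by
  classical
  induction s using Finset.induction_on with
  | empty => simp
  | insert a s ha ih =>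
    rw [← ih]
    rcases le_or_gt 0 (x a) with h | h
    · congr 1
      funext i
      by_cases hi : i = a
      · subst hi
        simp [ha, abs_of_nonneg h]
      · simp [hi]
    · have h1 := hflip a (fun i => if i ∈ s then |x i| else x i)
      rw [← h1]
      congr 1
      funext i
      by_cases hi : i = a
      · subst hi
        simp [ha, abs_of_neg h]
      · simp [hi]

/-- one coordinate decreased to `0` -/
theorem wa_dec {d : ℕ} {S : (Fin d → ℤ) → ℝ}
    (hm : ∀ (i : Fin d) (x), 1 ≤ x i → S x ≤ S (x - Pi.single i 1)) (j : Fin d) :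
    ∀ (n : ℕ) (x : Fin d → ℤ), x j = n → S x ≤ S (Function.update x j 0) := by
  classical
  intro n
  induction n with
  | zero =>
    intro x hx
    have : Function.update x j 0 = x := by
      rw [Function.update_eq_self_iff]
      simpa using hx.symm
    rw [this]
  | succ n ih =>
    intro x hx
    have h1 := hm j x (by rw [hx]; push_cast; omega)
    have h2 := ih (x - Pi.single j 1) (by simp [hx])
    refine h1.trans (h2.trans (le_of_eq ?_))
    congr 1
    funext i
    by_cases hi : i = j
    · subst hi; simp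
    · simp [hi]

theorem wa_dec_all {d : ℕ} {S : (Fin d → ℤ) → ℝ}
    (hm : ∀ (i : Fin d) (x), 1 ≤ x i → S x ≤ S (x - Pi.single i 1))
    (x : Fin d → ℤ) (hx : ∀ i, 0 ≤ x i) (s : Finset (Fin d)) :
    S x ≤ S (fun i => if i ∈ s then 0 else x i) := by
  classical
  induction s using Finset.induction_on with
  | empty => simp
  | insert a s ha ih =>
    refine ih.trans ?_
    have h := wa_dec hm a (x a).toNat (fun i => if i ∈ s then 0 else x i)
      (by simp [ha, Int.toNat_of_nonneg (hx a)])
    refine h.trans (le_of_eq ?_)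
    congr 1
    funext i
    by_cases hi : i = a
    · subst hi; simp
    · simp [hi]

theorem wa_ax {d : ℕ} {S : (Fin d → ℤ) → ℝ} (h : TwoAPI d S) (i₀ : Fin d) (k : ℕ) :
    S (Pi.single i₀ ((k : ℤ) + 1)) ≤ S (Pi.single i₀ (k : ℤ)) := by
  have h1 := h.mms1 i₀ (Pi.single i₀ ((k : ℤ) + 1)) (by simp)
  refine h1.trans (le_of_eq ?_)
  congr 1
  rw [← Pi.single_sub]
  simp

theorem wa_ax' {d : ℕ} {S : (Fin d → ℤ) → ℝ} (h : TwoAPI d S) (i₀ : Fin d) {k l : ℤ}
    (hk : 0 ≤ k) (hkl : k ≤ l) : S (Pi.single i₀ l) ≤ S (Pi.single i₀ k) := by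
  obtain ⟨a, rfl⟩ := Int.eq_ofNat_of_zero_le hk
  obtain ⟨b, rfl⟩ := Int.eq_ofNat_of_zero_le (hk.trans hkl)
  have hab : a ≤ b := by exact_mod_cast hkl
  induction b, hab using Nat.le_induction with
  | base => exact le_rfl
  | succ b hb ih =>
    have h1 := wa_ax h i₀ b
    have h2 := ih (by exact_mod_cast hb)
    refine le_trans ?_ h2
    exact_mod_cast h1

theorem wa_nrm {d : ℕ} {S : (Fin d → ℤ) → ℝ} (h : TwoAPI d S) (i₀ : Fin d) (x : Fin d → ℤ) :
    S x ≤ S (Pi.single i₀ (nrm x : ℤ)) := by
  classical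
  -- the coordinate with the maximal absolute value
  obtain ⟨k, -, hk⟩ := Finset.exists_mem_eq_sup (Finset.univ : Finset (Fin d)) ⟨i₀, Finset.mem_univ _⟩
    (fun i => (x i).natAbs)
  have hk' : (nrm x : ℤ) = |x k| := by
    unfold nrm
    rw [hk]
    simp
  have h1 := wa_abs h.flip x Finset.univ
  simp only [Finset.mem_univ, if_true] at h1
  have h2 := h.perm (Equiv.swap i₀ k) (fun i => |x i|)
  have h3 := wa_dec_all h.mms1 (fun i => |x (Equiv.swap i₀ k i)|) (fun i => abs_nonneg _)
    (Finset.univ.erase i₀)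
  rw [← h1, ← h2]
  refine h3.trans (le_of_eq ?_)
  congr 1
  funext i
  by_cases hi : i = i₀
  · subst hi
    simp [hk']
  · simp [hi]

theorem wa_cone_nonneg {d : ℕ} {i₀ : Fin d} {v : Fin d → ℤ} (hv : Cone i₀ v) : 0 ≤ v i₀ :=
  le_trans (Finset.sum_nonneg fun j hj => hv.1 j (Finset.ne_of_mem_erase hj)) hv.2

theorem wa_cone_le {d : ℕ} {i₀ : Fin d} {v : Fin d → ℤ} (hv : Cone i₀ v) (j : Fin d)
    (hj : j ≠ i₀) : v j ≤ v i₀ := by
  refine le_trans ?_ hv.2
  exact Finset.single_le_sum (f := fun j => v j)
    (fun j hj => hv.1 j (Finset.ne_of_mem_erase hj)) (Finset.mem_erase.2 ⟨hj, Finset.mem_univ _⟩)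

theorem wa_cone_nrm {d : ℕ} {i₀ : Fin d} {v : Fin d → ℤ} (hv : Cone i₀ v) :
    (nrm v : ℤ) = v i₀ := by
  have h0 := wa_cone_nonneg hv
  have h1 : nrm v = (v i₀).natAbs := by
    unfold nrm
    apply le_antisymm
    · refine Finset.sup_le fun j _ => ?_
      by_cases hj : j = i₀
      · rw [hj]
      · have a := wa_cone_le hv j hj
        have b := hv.1 j hj
        omega
    · exact Finset.le_sup (f := fun i => (v i).natAbs) (Finset.mem_univ i₀)
  rw [h1]
  omega

theorem wa_sum_erase {d : ℕ} (i₀ : Fin d) (v : Fin d → ℤ) :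
    ∑ i, v i = v i₀ + ∑ j ∈ Finset.univ.erase i₀, v j := by
  rw [Finset.add_sum_erase _ _ (Finset.mem_univ i₀)]

theorem wa_erase_single {d : ℕ} {i₀ j : Fin d} (hj : j ≠ i₀) (v : Fin d → ℤ) (c : ℤ) :
    ∑ k ∈ Finset.univ.erase i₀, (v + Pi.single j c : Fin d → ℤ) k =
      ∑ k ∈ Finset.univ.erase i₀, v k + c := by
  simp only [Pi.add_apply, Finset.sum_add_distrib]
  congr 1
  rw [Finset.sum_pi_single']
  simp [hj]

theorem wa_erase_single' {d : ℕ} {i₀ : Fin d} (v : Fin d → ℤ) (c : ℤ) :
    ∑ k ∈ Finset.univ.erase i₀, (v + Pi.single i₀ c : Fin d → ℤ) k =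
      ∑ k ∈ Finset.univ.erase i₀, v k := by
  simp only [Pi.add_apply, Finset.sum_add_distrib]
  rw [Finset.sum_pi_single']
  simp

theorem wa_cone_sum {d : ℕ} {S : (Fin d → ℤ) → ℝ} (h : TwoAPI d S) (i₀ : Fin d) :
    ∀ (n : ℕ) (v : Fin d → ℤ), Cone i₀ v → ∑ j ∈ Finset.univ.erase i₀, v j = n →
      S (Pi.single i₀ (∑ i, v i)) ≤ S v := by
  classical
  intro n
  induction n with
  | zero =>
    intro v hv hn
    have hz : ∀ j, j ≠ i₀ → v j = 0 := by
      intro j hj
      have h1 : v j ≤ ∑ j ∈ Finset.univ.erase i₀, v j :=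
        Finset.single_le_sum (f := fun j => v j)
          (fun j hj => hv.1 j (Finset.ne_of_mem_erase hj))
          (Finset.mem_erase.2 ⟨hj, Finset.mem_univ _⟩)
      have h2 := hv.1 j hj
      rw [hn] at h1
      push_cast at h1
      omega
    apply le_of_eq
    congr 1
    rw [wa_sum_erase i₀, hn]
    funext i
    by_cases hi : i = i₀
    · subst hi; simp
    · simp [hi, hz i hi]
  | succ n ih =>
    intro v hv hn
    -- some coordinate is positive
    have hex : ∃ j, j ≠ i₀ ∧ 1 ≤ v j := by
      by_contra hcon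
      push Not at hcon
      have : ∑ j ∈ Finset.univ.erase i₀, v j ≤ 0 :=
        Finset.sum_nonpos fun j hj => by
          have := hcon j (Finset.ne_of_mem_erase hj)
          omega
      rw [hn] at this
      push_cast at this
      omega
    obtain ⟨j, hj, hvj⟩ := hex
    set v' : Fin d → ℤ := v + Pi.single j (-1) + Pi.single i₀ 1 with hv'
    have e1 : ∑ k ∈ Finset.univ.erase i₀, v' k = n := by
      rw [hv', wa_erase_single', wa_erase_single hj, hn]
      push_cast
      ring
    have e2 : v' i₀ = v i₀ + 1 := by simp [hv', hj.symm]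
    have e3 : v' j = v j - 1 := by simp [hv', hj]; ring
    have e4 : ∀ k, k ≠ i₀ → k ≠ j → v' k = v k := by
      intro k hk hk'
      simp [hv', hk, hk']
    have hc : Cone i₀ v' := by
      refine ⟨fun k hk => ?_, ?_⟩
      · by_cases hkj : k = j
        · rw [hkj, e3]; omega
        · rw [e4 k hk hkj]; exact hv.1 k hk
      · rw [e1, e2]
        have := hv.2
        rw [hn] at this
        push_cast at this
        omega
    have h1 := ih v' hc e1
    have h2 := h.mms2 i₀ j v' hj.symm (by
      rw [e2, e3]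
      have := wa_cone_le hv j hj
      omega)
    have e5 : v' - Pi.single i₀ 1 + Pi.single j 1 = v := by
      rw [hv']
      funext k
      simp only [Pi.add_apply, Pi.sub_apply]
      by_cases hkj : k = j
      · subst hkj; simp [hj]
      · by_cases hk : k = i₀
        · subst hk; simp [hj.symm]
        · simp [hk, hkj]
    have e6 : ∑ i, v' i = ∑ i, v i := by
      rw [wa_sum_erase i₀ v', wa_sum_erase i₀ v, e1, e2, hn]
      push_cast
      ring
    rw [e5] at h2
    rw [← e6]
    exact h1.trans h2

/-- a diagonal step downwards in two coordinates -/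
theorem wa_mms2' {d : ℕ} {S : (Fin d → ℤ) → ℝ} (h : TwoAPI d S) {i j : Fin d} (hij : i ≠ j)
    (x : Fin d → ℤ) (hx : 1 ≤ x i + x j) :
    S x ≤ S (x - Pi.single i 1 - Pi.single j 1) := by
  classical
  have h1 := h.mms2 i j (Function.update x j (-(x j))) hij (by simp [hij]; omega)
  rw [h.flip j x] at h1
  refine h1.trans (le_of_eq ?_)
  rw [← h.flip j (x - Pi.single i 1 - Pi.single j 1)]
  congr 1
  funext k
  simp only [Pi.add_apply, Pi.sub_apply]
  by_cases hkj : k = j
  · subst hkj
    simp [hij.symm]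
    ring
  · by_cases hk : k = i
    · subst hk; simp [hij]
    · simp [hk, hkj]

theorem wa_shift {d : ℕ} {S : (Fin d → ℤ) → ℝ} (h : TwoAPI d S) (i₀ : Fin d) :
    ∀ (n : ℕ) (v x : Fin d → ℤ), Cone i₀ v → v i₀ = n → v i₀ + 1 ≤ x i₀ →
      (∀ j, j ≠ i₀ → v i₀ + v j + 1 ≤ x i₀ + x j) → S x ≤ S (x - v) := by
  classical
  intro n
  induction n with
  | zero =>
    intro v x hv hn _ _
    have hz : v = 0 := by
      funext j
      by_cases hj : j = i₀
      · rw [hj, hn]; simp
      · have h1 := wa_cone_le hv j hj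
        have h2 := hv.1 j hj
        rw [hn] at h1
        push_cast at h1
        simp only [Pi.zero_apply]
        omega
    rw [hz, sub_zero]
  | succ n ih =>
    intro v x hv hn h0 hx
    by_cases hex : ∃ j, j ≠ i₀ ∧ 1 ≤ v j
    · obtain ⟨j, hj, hvj⟩ := hex
      have h1 := wa_mms2' h hj.symm x (by
        have := hx j hj
        rw [hn] at this
        push_cast at this
        omega)
      set v' : Fin d → ℤ := v + Pi.single j (-1) + Pi.single i₀ (-1) with hv'
      set x' : Fin d → ℤ := x - Pi.single i₀ 1 - Pi.single j 1 with hx'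
      have e1 : ∑ k ∈ Finset.univ.erase i₀, v' k = ∑ k ∈ Finset.univ.erase i₀, v k - 1 := by
        rw [hv', wa_erase_single', wa_erase_single hj]
        ring
      have e2 : v' i₀ = v i₀ - 1 := by simp [hv', hj.symm]; ring
      have e3 : v' j = v j - 1 := by simp [hv', hj]; ring
      have e4 : ∀ k, k ≠ i₀ → k ≠ j → v' k = v k := by
        intro k hk hk'
        simp [hv', hk, hk']
      have f2 : x' i₀ = x i₀ - 1 := by simp [hx', hj.symm]
      have f3 : x' j = x j - 1 := by simp [hx', hj]
      have f4 : ∀ k, k ≠ i₀ → k ≠ j → x' k = x k := by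
        intro k hk hk'
        simp [hx', hk, hk']
      have hc : Cone i₀ v' := by
        refine ⟨fun k hk => ?_, ?_⟩
        · by_cases hkj : k = j
          · rw [hkj, e3]; omega
          · rw [e4 k hk hkj]; exact hv.1 k hk
        · rw [e1, e2]
          have := hv.2
          omega
      have h2 := ih v' x' hc (by rw [e2, hn]; push_cast; ring) (by rw [e2, f2]; omega) (by
        intro k hk
        by_cases hkj : k = j
        · subst hkj
          rw [e2, e3, f2, f3]
          have := hx k hk
          omega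
        · rw [e2, f2, e4 k hk hkj, f4 k hk hkj]
          have := hx k hk
          omega)
      refine h1.trans (h2.trans (le_of_eq ?_))
      congr 1
      funext k
      simp only [Pi.sub_apply]
      by_cases hkj : k = j
      · subst hkj
        rw [e3, f3]; ring
      · by_cases hk : k = i₀
        · subst hk
          rw [e2, f2]; ring
        · rw [e4 k hk hkj, f4 k hk hkj]
    · push Not at hex
      have hz : ∀ j, j ≠ i₀ → v j = 0 := fun j hj => by
        have h1 := hex j hj
        have h2 := hv.1 j hj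
        omega
      have h1 := h.mms1 i₀ x (by rw [hn] at h0; push_cast at h0; omega)
      set v' : Fin d → ℤ := v + Pi.single i₀ (-1) with hv'
      set x' : Fin d → ℤ := x - Pi.single i₀ 1 with hx'
      have e1 : ∑ k ∈ Finset.univ.erase i₀, v' k = 0 := by
        rw [hv', wa_erase_single']
        exact Finset.sum_eq_zero fun k hk => hz k (Finset.ne_of_mem_erase hk)
      have e2 : v' i₀ = v i₀ - 1 := by simp [hv']; ring
      have e4 : ∀ k, k ≠ i₀ → v' k = v k := by
        intro k hk
        simp [hv', hk]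
      have f2 : x' i₀ = x i₀ - 1 := by simp [hx']
      have f4 : ∀ k, k ≠ i₀ → x' k = x k := by
        intro k hk
        simp [hx', hk]
      have hc : Cone i₀ v' := by
        refine ⟨fun k hk => ?_, ?_⟩
        · rw [e4 k hk]; exact hv.1 k hk
        · rw [e1, e2, hn]
          push_cast
          omega
      have h2 := ih v' x' hc (by rw [e2, hn]; push_cast; ring) (by rw [e2, f2]; omega) (by
        intro k hk
        rw [e2, f2, e4 k hk, f4 k hk]
        have := hx k hk
        omega)
      refine h1.trans (h2.trans (le_of_eq ?_))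
      congr 1
      funext k
      simp only [Pi.sub_apply]
      by_cases hk : k = i₀
      · subst hk
        rw [e2, f2]; ring
      · rw [e4 k hk, f4 k hk]

theorem st_WA : ST_WA := by
  intro d _ i₀ S h
  refine ⟨fun x => wa_nrm h i₀ x, fun k => wa_ax h i₀ k, fun v hv => ?_, fun v hv => ?_,
    fun v hv x hx0 hx => ?_, fun v hv => wa_cone_nrm hv⟩
  · have hs : 0 ≤ ∑ j ∈ Finset.univ.erase i₀, v j :=
      Finset.sum_nonneg fun j hj => hv.1 j (Finset.ne_of_mem_erase hj)
    exact wa_cone_sum h i₀ _ v hv (Int.toNat_of_nonneg hs).symm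
  · have hs : 0 ≤ ∑ j ∈ Finset.univ.erase i₀, v j :=
      Finset.sum_nonneg fun j hj => hv.1 j (Finset.ne_of_mem_erase hj)
    have h1 := wa_cone_sum h i₀ _ v hv (Int.toNat_of_nonneg hs).symm
    refine le_trans ?_ h1
    have e := wa_sum_erase i₀ v
    have h0 := wa_cone_nonneg hv
    have h2 := hv.2
    apply wa_ax' h i₀
    · rw [e]; omega
    · rw [e]; omega
  · have h0 := wa_cone_nonneg hv
    refine wa_shift h i₀ _ v x hv (Int.toNat_of_nonneg h0).symm (by omega) ?_
    intro j hj
    have h1 := wa_cone_le hv j hj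
    have h2 := hx0 j
    omega

end IIC
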